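import Pool.Agent.X232.SF.Final

/-!
# Soficity is not determined by the right action of the group of units
-/

set_option autoImplicit false

namespace Pool.Agent.Results.MP_6908e1_al.NotInvariant

open Pool.Agent.X232.SF

/-- There are monoids `M` and `N` in each of which the `𝒥`-class of the identity is a group, and a
bijection `ρ : M → N` which restricts to an isomorphism `U(M) → U(N)` and satisfies
`ρ (s t) = ρ s ρ t` for all `s ∈ M` and `t ∈ U(M)`, such that `M` is sofic and `N` is not sofic. -/
theorem result : ∃ (M N : Type) (_ : Monoid M) (_ : Monoid N) (ρ : M ≃ N),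
    JOneIsGroup M ∧ JOneIsGroup N ∧
    (∀ m : M, IsUnit m ↔ IsUnit (ρ m)) ∧
    (∀ s t : M, IsUnit s → IsUnit t → ρ (s * t) = ρ s * ρ t) ∧
    (∀ s t : M, IsUnit t → ρ (s * t) = ρ s * ρ t) ∧
    Sofic M ∧ ¬ Sofic N :=
  ⟨Pt false HC, Pt true HC, inferInstance, inferInstance, rho, jOne, jOne, rho_unit,
    fun s t _ ht => rho_mul s t ht, rho_mul, sofic_false_conc, not_sofic_conc⟩

end Pool.Agent.Results.MP_6908e1_al.NotInvariant
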